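import Pool.Graph.R_pool_sql_team_seeded_9f66d723.Results.MP_bbcdf5_ag.OneToEveryPrime
import Pool.Agent.H943.MO.Kill

/-!
# The motivic Tate conjecture: motives which are of division type at one prime number

The setting is the setting of `OneToEveryPrime` in the library (the definitions are there): `M` is the sum
of finitely many polarized motives `M i`, pure of weight `w i`, over a finitely generated field `k` of
characteristic zero (motives of André, or for absolute Hodge cycles), `Γ` is the Galois group of `k` or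
the fundamental group of a model of `k`, `ρ ℓ` is the action of `Γ` on the `ℓ`-adic realizations of the
`M i`, `𝔤 ℓ` is the Lie algebra of the `ℓ`-adic motivic Galois group of `M`, and `s` is the homomorphism
from the Galois group of `ℚ` given by a rational point of the model (it is the identity for `k = ℚ`),
where the fibres of the `M i` have good reduction outside of a finite set of places.

Let `C` be the commutant of the algebra of endomorphisms which commute with `𝔤 ℓ₀` (for the identity
component of the motivic Galois group these are the `ℓ₀`-adic endomorphisms of the motive `M` over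
extensions of `k`): it is the algebra generated by `𝔤 ℓ₀` (`InAlgebra`). We say that `M` is of division
type at `ℓ₀` (`OfDivisionType`) if there are idempotents `e 1, ..., e m` in the centre of `C` such that
* `C (e j)` is a central division algebra over `ℚ_ℓ₀`, the degree and the exponent `q j` of which are a
  prime power (`IsDivisionBlock`; over `ℚ_ℓ₀` the degree and the exponent of a division algebra are
  always equal, by local class field theory);
* the Lie algebras `[C (e i), C (e i)]` and `[C (e j), C (e j)]` are not isomorphic for `i ≠ j`: by a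
  classical theorem this means that the algebras `C (e i)` and `C (e j)` are not isomorphic or
  anti-isomorphic, so their degrees are different or their local invariants are different up to the sign;
* the elements of `𝔤 ℓ₀` which are zero on the images of all `e j` are central in `𝔤 ℓ₀`.

For example, let the centre `E` of the algebra `End M` of a simple motive be a CM field which splits
completely at `ℓ₀` (or `E = ℚ`), and choose one place `λ` of each pair of conjugate places of `E` above
`ℓ₀`. If the components at these places `λ` of the algebra `C` are division algebras of prime power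
degrees, the local invariants of which are pairwise different up to the sign, then `M` is of division type:
by the polarization, an element of `𝔤 ℓ₀` which is zero at `λ` is a scalar at the conjugate place. Motives of
CM type may be added to `M`. There is no condition on the Hodge numbers of `M` or on its Hodge group.

**Theorem.** Suppose that at ONE prime number `ℓ₀` the motive `M` is of division type, that all Tate
endomorphisms of the fibre at the point commute with `𝔤 ℓ₀` (`EndomorphismsFixed`) and that the abelian part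
is known (`AbelianPart`, which is always true for motives for absolute Hodge cycles). Then
* the motivic Tate conjecture, up to finite groups, is true at `ℓ₀` for the fibre and for `M`, in any
  number of variables (`AllTate`), and the image of the Galois group is open (`OpenImage`);
* for EVERY prime number `ℓ` the realization of `M` is semisimple, the motivic Tate conjecture for `M` at
  `ℓ`, up to finite groups, is equivalent to the statement about endomorphisms alone, and if
  `AbelianPart` holds at `ℓ` it is equivalent to the open image of `Γ` at `ℓ`.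

In `OneToEveryPrime` the Tate tensors in at most four variables (together with the semisimplicity) or in
as many variables as the rank are needed at `ℓ₀`; here only the endomorphisms.

The proof. Let `L` be the Lie algebra of the Zariski closure of the image at `ℓ₀`. By the condition on
endomorphisms, `L` and `𝔤 = 𝔤 ℓ₀` have the same commutant. From this we show first (without any
semisimplicity of the realization) that `L` generates each division algebra `C (e j)`: a subspace of the
image of `e j` which is stable under a division algebra has a complement. Next, a Lie subalgebra `L` which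
generates a central division algebra `D` the degree and the exponent of which are a prime power contains
`[D, D]` (`Pool.Agent.H943.DP.rat_part_q`): the weights of a Cartan subalgebra of `L` are permuted
transitively by a group of prime power order, and a linear relation with integral coefficients between
them gives a splitting of a tensor product of copies of `D`, so that the sum of the coefficients is
divisible by the exponent; hence there are no relations. Then we show that `[D, D]` is a simple Lie algebra
(by an argument like that of Cartan, Brauer and Hua), and by the arguments of Goursat and Ribet the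
projection of `L` contains the sum of all `[C (e j), C (e j)]`. So `𝔤` is the sum of `L` and of its
centre, up to elements which are treated by `AbelianPart`.
-/

set_option autoImplicit false

namespace Pool.Agent.Results.MP_bbcdf5_ag.DivisionTypeAtOnePrime

open NumberField IsDedekindDomain Module Polynomial Topology Filter Pool.Agent.Y114.TF
  Pool.Agent.Y114.RM Pool.Agent.Y114.MU Pool.Agent.Y114.GF Pool.Agent.H204R3.GP
  Pool.Agent.R913.Adj Pool.Agent.R931.IR Pool.Agent.Results.MP_bbcdf5_ag.OneToEveryPrime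

section defs

variable {K : Type} [Field K] {V : Type} [AddCommGroup V] [Module K V]

/-- `X` belongs to the commutant `C` of the algebra of all endomorphisms which commute with `𝔤`. -/
def InAlgebra (𝔤 : Submodule K (End K V)) (X : End K V) : Prop :=
  ∀ Y, (∀ X' ∈ 𝔤, X' * Y = Y * X') → X * Y = Y * X

/-- The map `φ` is a representation by matrices of the algebra `C e` (a representation of `C` which
kills the elements that are zero on the image of `e`). -/
structure IsRepOn (𝔤 : Submodule K (End K V)) (e : End K V) {r : ℕ}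
    (φ : End K V → Matrix (Fin r) (Fin r) K) : Prop where
  add : ∀ X Y, InAlgebra 𝔤 X → InAlgebra 𝔤 Y → φ (X + Y) = φ X + φ Y
  mul : ∀ X Y, InAlgebra 𝔤 X → InAlgebra 𝔤 Y → φ (X * Y) = φ X * φ Y
  one : φ 1 = 1
  zero : ∀ X, InAlgebra 𝔤 X → X * e = 0 → φ X = 0

/-- `e` is a nonzero central idempotent of the algebra `C`, and `C e` is a central division algebra over
`K` the degree and the exponent of which are the prime power `q`. -/
structure IsDivisionBlock (𝔤 : Submodule K (End K V)) (e : End K V) (q : ℕ) : Prop where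
  /-- `e` is an idempotent -/
  idempotent : e * e = e
  /-- `e` is not zero -/
  ne_zero : e ≠ 0
  /-- `e` belongs to `C` -/
  mem : InAlgebra 𝔤 e
  /-- `e` commutes with `𝔤` -/
  comm : ∀ X ∈ 𝔤, X * e = e * X
  /-- the centre of `C e` is `K` -/
  centre : ∀ X, InAlgebra 𝔤 X → (∀ Y ∈ 𝔤, Y * X = X * Y) → ∃ c : K, X * e = c • e
  /-- `C e` is a division algebra: its nonzero elements are injective on the image of `e` -/
  division : ∀ X, InAlgebra 𝔤 X → X * e ≠ 0 → ∀ v, X (e v) = 0 → e v = 0
  /-- the dimension of `C e` is `q ^ 2` -/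
  degree : Set.finrank K {Y | ∃ X, InAlgebra 𝔤 X ∧ Y = X * e} = q ^ 2
  /-- the degree is a prime power -/
  prime_power : IsPrimePow q
  /-- the exponent is `q`: if the tensor product of `N` copies of `C e` has a representation the degree
  of which is at most `q ^ N`, then `q` divides `N` -/
  exponent : ∀ N r : ℕ, 0 < N → 0 < r → r ≤ q ^ N →
    ∀ φ : Fin N → (End K V → Matrix (Fin r) (Fin r) K), (∀ i, IsRepOn 𝔤 e (φ i)) →
    (∀ i j, i ≠ j → ∀ X Y, InAlgebra 𝔤 X → InAlgebra 𝔤 Y → φ i X * φ j Y = φ j Y * φ i X) → q ∣ N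

/-- The Lie algebra `[C e, C e]`. -/
def blockCommutators (𝔤 : Submodule K (End K V)) (e : End K V) : Submodule K (End K V) :=
  Submodule.span K {Z | ∃ X Y, InAlgebra 𝔤 X ∧ InAlgebra 𝔤 Y ∧ Z = (X * Y - Y * X) * e}

/-- The Lie algebras `S` and `T` of endomorphisms are isomorphic. -/
def IsomorphicLie (S T : Submodule K (End K V)) : Prop :=
  ∃ f : End K V →ₗ[K] End K V, (∀ x ∈ S, f x ∈ T) ∧ (∀ x ∈ S, f x = 0 → x = 0) ∧
    (∀ y ∈ T, ∃ x ∈ S, f x = y) ∧ ∀ x ∈ S, ∀ y ∈ S, f (x * y - y * x) = f x * f y - f y * f x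

/-- `𝔤` is of division type (see the introduction). -/
def OfDivisionType (𝔤 : Submodule K (End K V)) : Prop :=
  ∃ (m : ℕ) (e : Fin m → End K V) (q : Fin m → ℕ), (∀ j, IsDivisionBlock 𝔤 (e j) (q j)) ∧
    (∀ i j, i ≠ j → ¬ IsomorphicLie (blockCommutators 𝔤 (e i)) (blockCommutators 𝔤 (e j))) ∧
    ∀ X ∈ 𝔤, (∀ j, X * e j = 0) → ∀ Y ∈ 𝔤, Y * X = X * Y

theorem IsDivisionBlock.divE [CharZero K] [FiniteDimensional K V] {𝔤 : Submodule K (End K V)}
    {e : End K V} {q : ℕ} (h : IsDivisionBlock 𝔤 e q) : Pool.Agent.H943.MO.DivE 𝔤 e q where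
  idem := h.idempotent
  ne := h.ne_zero
  comm := h.comm
  mem := h.mem
  centre := h.centre
  div := h.division
  deg := h.degree
  pp := h.prime_power
  exp N r hN hr hrN φ h1 h2 _ := h.exponent N r hN hr hrN φ
    (fun i => ⟨fun X Y hX hY => (h1 i).add X hX Y hY, fun X Y hX hY => (h1 i).mul X hX Y hY,
      (h1 i).one, (h1 i).zero⟩) fun i j hij X Y hX hY => h2 i j hij X hX Y hY

end defs

/-- the fibre -/
theorem endo_of_fibre {Γ : Type} [Group Γ] {ι : Type} {n : ι → ℕ} {ℓ : ℕ}
    [Fact ℓ.Prime] {G : Type} [Group G] {ρ : Reps Γ n ℓ} {𝔤 : EndSpace n ℓ} (s : G →* Γ)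
    (h : EndomorphismsFixed (restrictTo ρ s) 𝔤) : EndomorphismsFixed ρ 𝔤 := by
  rintro Y ⟨Δ, hΔ, h1⟩
  refine h Y ⟨Δ.comap s, ⟨?_⟩, fun g hg => h1 (s g) hg⟩
  rw [Subgroup.index_comap]
  intro h0
  exact hΔ.index_ne_zero (Subgroup.index_eq_zero_of_relIndex_eq_zero h0)

/-- all Tate tensors at one prime number -/
theorem tate_all {Γ : Type} [Group Γ] [TopologicalSpace Γ] [IsTopologicalGroup Γ] [CompactSpace Γ]
    {ι : Type} [Fintype ι] [DecidableEq ι] {n : ι → ℕ} {ℓ : ℕ} [Fact ℓ.Prime] (ρ : Reps Γ n ℓ)
    (hρ : Conts ρ) (𝔤 : EndSpace n ℓ) (h𝔤 : Motivic ρ 𝔤) (hdiv : OfDivisionType 𝔤)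
    (hend : EndomorphismsFixed ρ 𝔤) (w : ι → ℤ) (hγ : ∃ γ, ActsPurely ρ w γ)
    (hab : AbelianPart ρ 𝔤 w) (N : ℕ) : TateUpTo ρ 𝔤 N := by
  obtain ⟨m, e, q, h1, h2, h3⟩ := hdiv
  obtain ⟨γ, hγ⟩ := hγ
  intro m _ φ hφ X hX
  refine Pool.Agent.H943.MO.kills_all ρ hρ h𝔤 (fun j => (h1 j).divE) (fun i j hij f hf => ?_) h3 hend
    hγ hab m φ hφ X hX
  exact h2 i j hij ⟨f, hf.maps, hf.inj, hf.surj, hf.lie⟩

theorem result {Γ : Type} [Group Γ] [TopologicalSpace Γ] [IsTopologicalGroup Γ] [CompactSpace Γ]
    {ι : Type} [Fintype ι] [DecidableEq ι] {n : ι → ℕ}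
    -- the polarized `ℓ`-adic realizations, and the Lie algebras of the motivic groups
    (ρ : ∀ (ℓ : ℕ) [Fact ℓ.Prime], Reps Γ n ℓ) (𝔤 : ∀ (ℓ : ℕ) [Fact ℓ.Prime], EndSpace n ℓ) (r : ℕ)
    (hsys : ∀ (ℓ : ℕ) [Fact ℓ.Prime],
      Conts (ρ ℓ) ∧ Polarized (ρ ℓ) ∧ Motivic (ρ ℓ) (𝔤 ℓ) ∧ RankLE (𝔤 ℓ) r)
    -- the rational point; good reduction of the fibre outside of a finite set of places
    (s : Gal(AlgebraicClosure ℚ/ℚ) →* Γ) (hs : Continuous s) (w : ι → ℤ) (c : ℕ)
    (S : Set (HeightOneSpectrum (𝓞 ℚ))) (P : HeightOneSpectrum (𝓞 ℚ) → ι → ℚ[X])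
    (hgood : GoodOutside s ρ w c S P)
    -- one prime number, at which the motive is of division type and the endomorphisms are known
    (ℓ₀ : ℕ) [Fact ℓ₀.Prime] (hge : RankGE (𝔤 ℓ₀) r) (hdiv : OfDivisionType (𝔤 ℓ₀))
    (hend : EndomorphismsFixed (restrictTo (ρ ℓ₀) s) (𝔤 ℓ₀))
    (hab : AbelianPart (restrictTo (ρ ℓ₀) s) (𝔤 ℓ₀) w) :
    AllTate (restrictTo (ρ ℓ₀) s) (𝔤 ℓ₀) ∧ AllTate (ρ ℓ₀) (𝔤 ℓ₀) ∧
    OpenImage (restrictTo (ρ ℓ₀) s) (𝔤 ℓ₀) ∧
    ∀ (ℓ : ℕ) [Fact ℓ.Prime], Semisimple (ρ ℓ) ∧
      (AllTate (ρ ℓ) (𝔤 ℓ) ↔ EndomorphismsFixed (ρ ℓ) (𝔤 ℓ)) ∧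
      (FiniteOrderFrom s ℓ → AbelianPart (ρ ℓ) (𝔤 ℓ) w →
        (AllTate (ρ ℓ) (𝔤 ℓ) ↔ OpenImage (ρ ℓ) (𝔤 ℓ))) := by
  have hcpt : CompactSpace Gal(AlgebraicClosure ℚ/ℚ) :=
    (inferInstance : CompactSpace (Pool.Agent.W569.FM.GF ℚ))
  have hρ0 : Conts (restrictTo (ρ ℓ₀) s) := fun i => ((hsys ℓ₀).1 i).comp hs
  have hM0 : Motivic (restrictTo (ρ ℓ₀) s) (𝔤 ℓ₀) :=
    Pool.Agent.H50.FT.motivic_restrict s (hsys ℓ₀).2.2.1
  have hpol0 : Polarized (restrictTo (ρ ℓ₀) s) := fun i => by
    obtain ⟨B, hB1, hB2, hB3⟩ := (hsys ℓ₀).2.1 i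
    exact ⟨B, hB1, hB2, fun γ => hB3 (s γ)⟩
  -- a Frobenius element
  obtain ⟨p, -, hp, hfrob⟩ := Pool.Agent.H50.FT.three_primes (restrictTo (ρ ℓ₀) s) w S hgood.1 P
    (hgood.2.2 ℓ₀)
  have hact : ∃ γ, ActsPurely (restrictTo (ρ ℓ₀) s) w γ := by
    obtain ⟨σ, -, h1⟩ := hfrob 0
    choose Q hQ using h1
    exact ⟨σ⁻¹, p 0, Q, by exact_mod_cast (hp 0).1.one_lt, hQ⟩
  have hT := tate_all (restrictTo (ρ ℓ₀) s) hρ0 (𝔤 ℓ₀) hM0 hdiv hend w hact hab
    (4 + ∑ i, n i)
  have hn : ∀ i, n i ≤ 4 + ∑ i, n i := fun i =>
    (Finset.single_le_sum (f := n) (fun _ _ => Nat.zero_le _) (Finset.mem_univ i)).trans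
      (Nat.le_add_left _ _)
  have hmain := OneToEveryPrime.result ρ 𝔤 r hsys s hs w c S P hgood ℓ₀ hge
    (Or.inr ⟨hab, Or.inr ⟨4 + ∑ i, n i, Nat.le_add_right _ _, hn, hT⟩⟩)
  have heq := equivalence (MonoidHom.id _) continuous_id (restrictTo (ρ ℓ₀) s) hρ0 hpol0 (𝔤 ℓ₀) hM0
    w S hgood.1 P (hgood.2.2 ℓ₀) (fun ψ _ h => h) hab
  exact ⟨(heq.2.1 _ (Nat.le_add_right _ _) hn).2 hT, (hmain.2 ℓ₀).2.1.2 (endo_of_fibre s hend), hmain⟩

end Pool.Agent.Results.MP_bbcdf5_ag.DivisionTypeAtOnePrime
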