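import Pool.Agent.H851.IN.Pub

/-!
# A motive of K3 type is independent of every motive with small or abelian pieces

Let `X` be a smooth projective surface (or a variety of any dimension) over a number field `K` with
`h^{2,0} = 1`, `ℓ` a prime number and `V = H^2(X, ℚ_ℓ)` with the cup product `q`; more generally let `V` be the
`ℓ`-adic realization of a pure motive `M` over `K` with the Hodge numbers `(1, b - 2, 1)`, after a twist. Assume
that `V` is semisimple and that the Tate endomorphisms are scalars on the transcendental part `T`, the
orthogonal complement of the Tate classes, of dimension `d`, where `d ≥ 3` and `d ≠ 4`. So the Lie algebra of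
the `ℓ`-adic monodromy group of `M(1)` is `so(T)`, by the results of
`Pool.Agent.Results.MP_b8862a_ag.KThreeEndomorphisms`.

Let `W` be ANY second representation of the Galois group of `K` over `ℚ_ℓ`, with a chain of subspaces stable under a
subgroup of finite index such that each piece is small, of dimension `e` with `2 e ^ 2 ≤ d (d - 1)`, or
potentially abelian (the subgroup acts on it through commuting operators). For example `W` may be a
representation of an arbitrary motive `N`, pure or mixed, over `K` whose pieces over the algebraic closure of `K` are
small: the cohomology of abelian varieties whose simple factors have dimension at most `7` (if `d = 21`, a K3 surface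
with Picard number one) or have complex multiplication, of modular forms of any weight (`d ≥ 5`), of
Artin motives, of Kummer motives, and all their extensions. No form, no purity, no semisimplicity, no
information at places of `K`, and no continuity is assumed for `W`.

**Theorem.** (1) For all elements `X` of the Lie algebra of `M(1)`, the operator `(X, 0)` kills all Tate tensors of
`V(1) ⊕ W` and preserves all subspaces of `V(1) ⊕ W` which are stable under a subgroup of finite index.

(2) Every form on `V(1) ^ A × W ^ B` which is invariant under an open subgroup is a linear combination of
products of forms on `V(1) ^ A` and forms on `W ^ B` which are invariant under open subgroups.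

So the Tate classes in all tensor constructions of `M ⊕ N` are generated by those of `M` and those of `N` (to
include the dual of `N` apply the theorem to `N ⊕ N^∨`): the motivic Tate conjecture (Q1) for `M ⊕ N` is
equivalent to the conjunction of the motivic Tate conjectures for `M` and for `N`. The `ℓ`-adic monodromy group of
`M(1) ⊕ N` contains `SO(T) × 1` if `N` is semisimple.

The proof. Let `L` be the Lie algebra of `V(1) ⊕ W` (the operators with the property in (1)). By
`Pool.Agent.H851.ZD.lift` it is mapped ONTO the Lie algebra of `M(1)`: this uses ordinary Frobenius elements, the
six exponentials theorem, and the fact that an `L`-image commuting with too much would be killed. The Lie algebra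
`so(T)` is simple, over `ℚ_ℓ`, as `d ≠ 4`. So for every piece of the chain the ideal of the elements of `L` which
kill this piece is mapped onto `so(T)` or to zero. In the second case `so(T)` is a quotient of a Lie algebra of
matrices of size `e`, of trace zero as `so(T)` is perfect, so `dim so(T) ≤ e ^ 2 - 1`. For a potentially
abelian piece one uses the representation induced from the piece; it is killed by the brackets in the Lie
algebra of its direct sum with `V(1)` and `W`, and the graph of the map from the subspace to it is
stable. By simplicity the intersection of all these ideals is still mapped onto `so(T)`, and iterated brackets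
move every step of the chain down to zero. This gives (1). For (2) fix the variables in `W`. Then (1) says that the
form is killed by the Lie algebra of `M(1)`, and it is invariant under an open subgroup, as
`V` is semisimple (`Pool.Agent.Results.MP_640417_ag.PowersOfKThreeType`).

The facts on `V` which are used are collected in the structure `IsK3Type`, see
`Pool.Agent.Results.MP_b8862a_ag.KThreeEndomorphisms`: at almost all primes `p` and places of degree one above `p` the
characteristic polynomial of the Frobenius element is monic with integral coefficients, with zeros of absolute
value `p` (Weil conjectures), and its Newton polygon lies above the Hodge polygon (Mazur, Berthelot, Ogus). The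
matrix `tw χ ρ g = χ(g)⁻¹ ρ(g)` is the action on `V(1)`, as `χ` is the inverse of the cyclotomic character.
-/

set_option autoImplicit false

namespace Pool.Agent.Results.MP_bbcdf5_ag.SmallPieces

open Polynomial NumberField IsDedekindDomain Module
open Pool.Agent.H851.K3
open Pool.Agent.H851.TT (ScalarEnds)
open Pool.Agent.H851.IN (SmallPieces Splits MixInv prodForms)
open Pool.Agent.NH56.HY (GK tw)

/-- **A motive of K3 type and a motive with small or abelian pieces are independent.** `ρ` is the action of the
Galois group of `K` on `V = ℚ_ℓ ^ n`, `q` the form, `χ` the inverse of the cyclotomic character, `σ` the action on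
`W = ℚ_ℓ ^ m`. (1) is `Splits`. A form on `V ^ A × W ^ B` is given by its coordinates. -/
theorem result {K : Type} [Field K] [NumberField K] {ℓ : ℕ} [Fact ℓ.Prime] {n : Type} [Fintype n]
    [DecidableEq n] {q : Matrix n n ℚ_[ℓ]} {S : Finset ℕ} {χ : GK K →* ℚ_[ℓ]}
    {Pol : HeightOneSpectrum (𝓞 K) → ℤ[X]} {ρ : GK K →* Matrix n n ℚ_[ℓ]}
    (h : IsK3Type q S χ Pol ρ) (hss : Semisimple ρ) (hsc : ScalarEnds q χ ρ) (d : ℕ)
    (hd : finrank ℚ_[ℓ] (orth q (tate χ ρ)) = d) (hd3 : 3 ≤ d) (hd4 : d ≠ 4) {m : Type}
    [Fintype m] [DecidableEq m] (σ : GK K →* Matrix m m ℚ_[ℓ]) (hσ : SmallPieces d σ) :
    Splits χ ρ σ ∧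
    ∀ (A B : Type) [Fintype A] [DecidableEq A] [Fintype B] [DecidableEq B]
      (F : (A → n) → (B → m) → ℚ_[ℓ]), MixInv (tw χ ρ) σ F → F ∈ prodForms (tw χ ρ) σ A B := by
  subst hd
  have h1 : Splits χ ρ σ := Pool.Agent.H851.IN.splits_of_small h hss hsc hd3 hd4 hσ
  exact ⟨h1, fun A B _ _ _ _ F hF => Pool.Agent.H851.IN.mix_main h hss h1 hF⟩

end Pool.Agent.Results.MP_bbcdf5_ag.SmallPieces
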